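import Pool.Agent.H505R3.SLM.Stmts

/-!
# A large family of matrices of permanent zero with many independent derivatives
-/

set_option autoImplicit false

open MvPolynomial Finset

namespace Pool.Agent.H269R3.SLM

open Pool.Agent.H546R2.SL (perN aeval_pderiv exists_zeta phi lin eps eps_X_mul map_phi
  map_phi_deriv permanent_eq map_permanent map_lin)
open Pool.Agent.H546R2.SM

section Scale

variable {R : Type*} [CommRing R] {m w k : ℕ}

lemma eps_scale1 (I : Finset (Fin m)) (τ : R) (b : Fin m → Fin w → R) (S : Finset (Fin w)) :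
    eps S (∏ r ∈ I, (1 + lin (fun c => τ * b r c))) =
      τ ^ S.card * eps S (∏ r ∈ I, (1 + lin (b r))) := by
  have h := eps_scale I (fun _ => (1 : R)) b (fun _ => τ) S
  simp only [map_one, Finset.prod_const] at h
  exact h

lemma phi_scale1 (τ : R) (b : Fin m → Fin w → R) :
    phi k (∏ r, (1 + lin (fun c => τ * b r c))) = τ ^ k * phi k (∏ r, (1 + lin (b r))) := by
  unfold phi
  rw [Finset.mul_sum]
  apply Finset.sum_congr rfl
  intro S hS
  rw [Finset.mem_powersetCard] at hS
  rw [eps_scale1, hS.2]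

lemma phi_deriv_scale1 (τ : R) (b : Fin m → Fin w → R) (r₀ : Fin m) (c₀ : Fin w) :
    phi k (X c₀ * ∏ r ∈ Finset.univ.erase r₀, (1 + lin (fun c => τ * b r c))) =
      τ ^ (k - 1) * phi k (X c₀ * ∏ r ∈ Finset.univ.erase r₀, (1 + lin (b r))) := by
  unfold phi
  rw [Finset.mul_sum]
  apply Finset.sum_congr rfl
  intro S hS
  rw [Finset.mem_powersetCard] at hS
  rw [eps_X_mul, eps_X_mul]
  by_cases hc : c₀ ∈ S
  · rw [if_pos hc, if_pos hc, eps_scale1, Finset.card_erase_of_mem hc, hS.2]
  · rw [if_neg hc, if_neg hc, mul_zero]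

end Scale

section Theta

variable {K : Type*} [Field K] (q h k : ℕ) (lam : K)

/-- index type of the variables after the substitution -/
abbrev J (q h k : ℕ) := Fin q × Fin (q + q) × Fin h × Fin k

/-- the second half of the blocks is `lam` times the first half -/
noncomputable def th (v : Idx (q + q) h k) : MvPolynomial (J q h k) K :=
  Fin.addCases (fun β => X (β, v.2)) (fun β => C lam * X (β, v.2)) v.1

/-- the substitution -/
noncomputable def theta : MvPolynomial (Idx (q + q) h k) K →ₐ[K] MvPolynomial (J q h k) K :=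
  aeval (th q h k lam)

/-- scaled entries after the substitution -/
noncomputable def bq (C₀ : ℕ) (t : K) (g : ℕ) (β : Fin q) (b' : Fin (q + q)) (r : Fin (2 * k))
    (c : Fin C₀) : MvPolynomial (J q h k) K :=
  theta q h k lam (bent K (q + q) h k C₀ t g (Fin.castAdd q β) b' r c)

variable {q h k lam}

lemma theta_C (x : K) : theta q h k lam (C x) = C x := by
  unfold theta
  rw [aeval_C]
  rfl

lemma theta_X_left (β : Fin q) (x : Fin (q + q) × Fin h × Fin k) :
    theta q h k lam (X (Fin.castAdd q β, x)) = X (β, x) := by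
  unfold theta
  rw [aeval_X]
  unfold th
  exact Fin.addCases_left _

lemma theta_X_right (β : Fin q) (x : Fin (q + q) × Fin h × Fin k) :
    theta q h k lam (X (Fin.natAdd q β, x)) = C lam * X (β, x) := by
  unfold theta
  rw [aeval_X]
  unfold th
  exact Fin.addCases_right _

lemma theta_zent (C₀ : ℕ) (β : Fin q) (b' : Fin (q + q)) (r : Fin (2 * k)) (c : Fin C₀) :
    theta q h k lam (zent K (q + q) h k C₀ (Fin.natAdd q β) b' r c) =
      C lam * theta q h k lam (zent K (q + q) h k C₀ (Fin.castAdd q β) b' r c) := by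
  unfold zent
  split_ifs with hrc
  · rw [map_sum, map_sum, Finset.mul_sum]
    apply Finset.sum_congr rfl
    intro l _
    rw [map_mul, map_mul, theta_C, theta_X_left, theta_X_right]
    ring
  · rw [map_zero, mul_zero]

lemma theta_bent (C₀ : ℕ) (t : K) (g : ℕ) (β : Fin q) (b' : Fin (q + q)) (r : Fin (2 * k))
    (c : Fin C₀) :
    theta q h k lam (bent K (q + q) h k C₀ t g (Fin.natAdd q β) b' r c) =
      C lam * bq q h k lam C₀ t g β b' r c := by
  unfold bq bent
  rw [map_mul, map_mul, theta_C, theta_zent]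
  ring

lemma theta_coe (x : MvPolynomial (Idx (q + q) h k) K) :
    (theta q h k lam).toRingHom x = theta q h k lam x := rfl

lemma theta_phi {w : ℕ} (p : MvPolynomial (Fin w) (MvPolynomial (Idx (q + q) h k) K)) (n : ℕ) :
    theta q h k lam (phi n p) = phi n (MvPolynomial.map (theta q h k lam).toRingHom p) :=
  map_phi (theta q h k lam).toRingHom n p

lemma theta_phi_left (C₀ : ℕ) (t : K) (g : ℕ) (β : Fin q) (b' : Fin (q + q)) (n : ℕ) :
    theta q h k lam (phi n (∏ r, (1 + lin (bent K (q + q) h k C₀ t g (Fin.castAdd q β) b' r)))) =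
      phi n (∏ r, (1 + lin (bq q h k lam C₀ t g β b' r))) := by
  rw [theta_phi, map_prod]
  simp only [map_add, map_one, map_lin]
  rfl

lemma theta_phi_right (C₀ : ℕ) (t : K) (g : ℕ) (β : Fin q) (b' : Fin (q + q)) (n : ℕ) :
    theta q h k lam (phi n (∏ r, (1 + lin (bent K (q + q) h k C₀ t g (Fin.natAdd q β) b' r)))) =
      C lam ^ n * phi n (∏ r, (1 + lin (bq q h k lam C₀ t g β b' r))) := by
  rw [theta_phi, map_prod, ← phi_scale1]
  have h1 : ∀ r : Fin (2 * k), MvPolynomial.map (theta q h k lam).toRingHom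
      (1 + lin (bent K (q + q) h k C₀ t g (Fin.natAdd q β) b' r)) =
        1 + lin (fun c => C lam * bq q h k lam C₀ t g β b' r c) := by
    intro r
    rw [map_add, map_one, map_lin]
    simp only [theta_coe, theta_bent]
  rw [Finset.prod_congr rfl (fun r _ => h1 r)]

lemma theta_Yf_left (C₀ : ℕ) (t : K) (β : Fin q) (b' : Fin (q + q)) (r₀ : Fin (2 * k))
    (c₀ : Fin C₀) :
    theta q h k lam (Yf K (q + q) h k C₀ t (Fin.castAdd q β, b', r₀, c₀)) =
      ∑ g : Fin h, C (t ^ ex c₀ r₀ g) * phi k (X c₀ * ∏ r ∈ Finset.univ.erase r₀,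
        (1 + lin (bq q h k lam C₀ t g β b' r))) := by
  unfold Yf
  rw [map_sum]
  apply Finset.sum_congr rfl
  intro g _
  rw [map_mul, theta_C]
  congr 1
  exact map_phi_deriv (theta q h k lam).toRingHom k _ r₀ c₀

lemma theta_Yf_right (C₀ : ℕ) (t : K) (β : Fin q) (b' : Fin (q + q)) (r₀ : Fin (2 * k))
    (c₀ : Fin C₀) :
    theta q h k lam (Yf K (q + q) h k C₀ t (Fin.natAdd q β, b', r₀, c₀)) =
      C lam ^ (k - 1) *
        theta q h k lam (Yf K (q + q) h k C₀ t (Fin.castAdd q β, b', r₀, c₀)) := by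
  rw [theta_Yf_left]
  unfold Yf
  rw [map_sum, Finset.mul_sum]
  apply Finset.sum_congr rfl
  intro g _
  rw [map_mul, theta_C, mul_left_comm (C lam ^ (k - 1)), ← phi_deriv_scale1]
  congr 1
  have h1 := map_phi_deriv (theta q h k lam).toRingHom k
    (fun r c => bent K (q + q) h k C₀ t g (Fin.natAdd q β) b' r c) r₀ c₀
  simp only [theta_coe, theta_bent] at h1
  exact h1

lemma th_homog (v : Idx (q + q) h k) : (th q h k lam v).IsHomogeneous 1 := by
  obtain ⟨b, x⟩ := v
  unfold th
  refine Fin.addCases (fun β => ?_) (fun β => ?_) b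
  · rw [Fin.addCases_left]
    exact isHomogeneous_X _ _
  · rw [Fin.addCases_right]
    exact isHomogeneous_C_mul_X _ _

lemma theta_homog {p : MvPolynomial (Idx (q + q) h k) K} {n : ℕ} (hp : p.IsHomogeneous n) :
    (theta q h k lam p).IsHomogeneous n := by
  have := hp.aeval (th q h k lam) (fun v => th_homog v)
  rwa [one_mul] at this

/-- the point of the big space -/
def up (lam : K) (ξ : J q h k → K) : Idx (q + q) h k → K := fun v =>
  Fin.addCases (fun β => ξ (β, v.2)) (fun β => lam * ξ (β, v.2)) v.1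

lemma eval_theta (ξ : J q h k → K) (p : MvPolynomial (Idx (q + q) h k) K) :
    eval ξ (theta q h k lam p) = eval (up lam ξ) p := by
  have h1 : (aeval ξ : MvPolynomial (J q h k) K →ₐ[K] K).comp (theta q h k lam) =
      aeval (up lam ξ) := by
    apply MvPolynomial.algHom_ext
    rintro ⟨b, x⟩
    rw [AlgHom.comp_apply, aeval_X]
    refine Fin.addCases (fun β => ?_) (fun β => ?_) b
    · rw [theta_X_left, aeval_X]
      unfold up
      rw [Fin.addCases_left]
    · rw [theta_X_right, map_mul, aeval_X, aeval_C]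
      unfold up
      rw [Fin.addCases_right]
      rfl
  have h2 := DFunLike.congr_fun h1 p
  rw [AlgHom.comp_apply] at h2
  rw [← coe_aeval_eq_eval, ← coe_aeval_eq_eval]
  exact h2

end Theta

lemma aeval_perN {K A : Type*} [CommRing K] [CommRing A] [Algebra K A]
    {ρ γ : Type*} [Fintype ρ] [DecidableEq ρ] [Fintype γ] [DecidableEq γ] {N : ℕ}
    (M : ρ → γ → A) (er : Fin N ≃ ρ) (ec : Fin N ≃ γ) :
    aeval (fun p : Fin N × Fin N => M (er p.1) (ec p.2)) (perN K N) = per M := by
  unfold per
  rw [← permanent_eq M er ec]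
  have h1 := map_permanent (aeval (R := K) (fun p : Fin N × Fin N => M (er p.1) (ec p.2))).toRingHom
    (fun i j : Fin N => (X (i, j) : MvPolynomial (Fin N × Fin N) K))
  refine h1.trans ?_
  congr 1
  ext i j
  simp only [Matrix.of_apply, AlgHom.toRingHom_eq_coe, RingHom.coe_coe, aeval_X]

theorem taskD.{u} : Pool.Agent.H505R3.SLM.TaskD.{u} := by
  intro K _ _ _ q h k p N hk hN
  classical
  obtain ⟨zC, hzC⟩ := exists_zeta K (2 * k + h) (by omega)
  obtain ⟨zU, hzU⟩ := exists_zeta K (k + 1) (by omega)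
  obtain ⟨zm, hzm⟩ := exists_zeta K (2 * k) (by omega)
  obtain ⟨zV, hzV⟩ := exists_zeta K (k + h + 1) (by omega)
  obtain ⟨t, ht, hzero⟩ := exists_t (q := q + q) (h := h) (k := k) (C₀ := 2 * k + h) K hk rfl
  obtain ⟨lam, hlam⟩ := IsAlgClosed.exists_pow_nat_eq (-1 : K) (n := k) (by omega)
  have hlam0 : lam ≠ 0 := by
    rintro rfl
    rw [zero_pow (by omega)] at hlam
    exact absurd hlam (by norm_num)
  set FMA := FM K (q + q) h k p t zC zU zm zV (Aent K (q + q) h k t) with hFMA
  let er : Fin N ≃ FR (q + q) h (2 * k) (2 * k + h) k (k + h) p :=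
    Fintype.equivOfCardEq (by rw [card_FR, Fintype.card_fin, hN]; ring)
  let ec : Fin N ≃ FC (q + q) h (2 * k) (2 * k + h) k (k + h) p :=
    Fintype.equivOfCardEq (by rw [card_FC, Fintype.card_fin, hN]; ring)
  have hcomp : ∀ P : MvPolynomial (Fin N × Fin N) K,
      aeval (fun x : Fin N × Fin N => theta q h k lam (FMA (er x.1) (ec x.2))) P =
        theta q h k lam (aeval (fun x : Fin N × Fin N => FMA (er x.1) (ec x.2)) P) := by
    intro P
    have := comp_aeval_apply (fun x : Fin N × Fin N => FMA (er x.1) (ec x.2))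
      (theta q h k lam) P
    rw [this]
  refine ⟨fun x => theta q h k lam (FMA (er x.1) (ec x.2)),
    Fin q × Fin (q + q) × Fin (2 * k) × Fin (2 * k + h),
    fun v => theta q h k lam
      (Yf K (q + q) h k (2 * k + h) t (Fin.castAdd q v.1, v.2.1, v.2.2.1, v.2.2.2)),
    ?_, ?_, ?_, ?_, ?_⟩
  · -- affine entries
    intro x
    have hCmem : ∀ y : K, theta q h k lam (C y) ∈ restrictTotalDegree (J q h k) K 1 := by
      intro y
      rw [theta_C, mem_restrictTotalDegree, totalDegree_C]
      exact Nat.zero_le _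
    rw [hFMA]
    unfold FM
    apply fin_mem (W := {P : MvPolynomial (Idx (q + q) h k) K |
      theta q h k lam P ∈ restrictTotalDegree (J q h k) K 1})
    · rw [Set.mem_ofPred_eq, map_zero]
      exact Submodule.zero_mem _
    · exact hCmem 1
    · exact fun _ => hCmem _
    · exact fun _ => hCmem _
    · exact fun _ => hCmem _
    · exact fun _ => hCmem _
    · intro b b' r c
      have := (theta_homog (lam := lam)
        ((zent_homog (K := K) (h := h) b b' r c).C_mul (t ^ ex c r 0))).totalDegree_le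
      exact (mem_restrictTotalDegree _ _ _).mpr this
    · exact fun _ _ => hCmem _
    · exact fun _ _ => hCmem _
    · exact fun _ => hCmem _
  · -- the permanent vanishes
    rw [hcomp, aeval_perN, hFMA]
    unfold FM
    rw [per_fin (k := k) _ _ _ _ (-1) (-1) (-1) (-1) (zeta_C zC hzC) (zeta_C zU hzU) (zeta_C zm hzm)
      (zeta_C zV hzV) (by omega) (by ring) (by ring), map_mul]
    have hsum : ∀ b b' : Fin (q + q), ∀ g : Fin h,
        C (wX K h k t g) * Phi k (Aent K (q + q) h k t b b')
          (fun r => C (wR K t g r)) (fun c => C (wC K t g c)) =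
          phi k (∏ r, (1 + lin (bent K (q + q) h k (2 * k + h) t g b b' r))) := by
      intro b b' g
      apply wX_Phi ht
      intro r c
      have h1 := weight_identity ht g c r
      unfold Aent bent
      rw [← mul_assoc, ← map_mul, h1, map_mul, map_mul]
      ring
    simp_rw [hsum]
    rw [Fin.sum_univ_add, map_add, ← Finset.sum_congr rfl (fun β _ => rfl), map_sum, map_sum,
      ← Finset.sum_add_distrib]
    rw [Finset.sum_eq_zero, mul_zero]
    intro β _
    rw [map_sum, map_sum, ← Finset.sum_add_distrib]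
    apply Finset.sum_eq_zero
    intro b' _
    rw [map_sum, map_sum, ← Finset.sum_add_distrib]
    apply Finset.sum_eq_zero
    intro g _
    rw [theta_phi_left, theta_phi_right, ← map_pow, hlam, map_neg, map_one]
    ring
  · -- homogeneous
    intro v
    exact theta_homog (Yf_homog t _)
  · -- no common zero
    intro ξ hξ
    have h1 := hzero (up lam ξ) (by
      rintro ⟨b, b', r, c⟩
      rw [← eval_theta]
      refine Fin.addCases (fun β => ?_) (fun β => ?_) b
      · exact hξ (β, b', r, c)
      · rw [theta_Yf_right, map_mul]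
        have := hξ (β, b', r, c)
        simp only at this
        rw [this, mul_zero])
    funext ⟨β, x⟩
    have h2 := congrFun h1 (Fin.castAdd q β, x)
    unfold up at h2
    simp only [Fin.addCases_left] at h2
    exact h2
  · -- the derivatives
    rintro ⟨β, b₀', r₀, c₀⟩
    refine ⟨(cst K (q + q) h (2 * k) (2 * k + h) k (k + h) p (-1) (-1) (-1) (-1))⁻¹ *
      t ^ ex c₀ r₀ 0,
      (er.symm (posR b₀' c₀), ec.symm (posC (Fin.castAdd q β) r₀)), ?_⟩
    rw [hcomp, aeval_pderiv, Equiv.apply_symm_apply, Equiv.apply_symm_apply]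
    have h2 := per_add FMA (FM K (q + q) h k p t zC zU zm zV (fun b b' r c =>
        Aent K (q + q) h k t b b' r c +
        if b' = b₀' ∧ c = c₀ then (if b = Fin.castAdd q β ∧ r = r₀ then 1 else 0) else 0))
      (posR b₀' c₀) (posC (Fin.castAdd q β) r₀)
      (fun i j => fin_add _ _ _ _ _ _ _ _ _ (Fin.castAdd q β) b₀' r₀ c₀
        (fun _ _ _ _ => rfl) i j)
    rw [← h2, map_mul, mul_assoc, ← theta_C (lam := lam) (t ^ ex c₀ r₀ 0), ← map_mul, hFMA,
      FM_diff ht (by omega) zC zU zm zV hzC hzU hzm hzV (Fin.castAdd q β) b₀' r₀ c₀]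
    have hne := cst_ne_zero (K := K) (q + q) h (2 * k) (2 * k + h) k (k + h) p
    rw [map_mul, theta_C, ← mul_assoc, ← map_mul, inv_mul_cancel₀ hne, map_one, one_mul]

end Pool.Agent.H269R3.SLM
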